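import Pool.Agent.V11105.CQf

set_option autoImplicit false

namespace Pool.Agent.Results.MP_8220a0_an.KaneNotSharp

open MeasureTheory

/-- `2π`-periodic weight functions. -/
def IsWeight (W : ℝ → ℝ) : Prop :=
  Measurable W ∧ (∀ θ, 0 ≤ W θ) ∧ (∀ θ, W (θ + 2 * Real.pi) = W θ) ∧
    IntervalIntegrable W volume (-Real.pi) Real.pi ∧ 0 < ∫ θ in (-Real.pi)..Real.pi, W θ

/-- Real trigonometric polynomials of degree at most `n`. -/
def IsTrig (n : ℕ) (p : ℝ → ℝ) : Prop :=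
  ∃ a b : ℕ → ℝ, ∀ θ : ℝ, p θ = ∑ j ∈ Finset.range (n + 1),
    (a j * Real.cos (j * θ) + b j * Real.sin (j * θ))

/-- There is a Chebyshev-type quadrature of degree `n` for `W` with exactly `N` nodes. -/
def HasQuad (W : ℝ → ℝ) (n N : ℕ) : Prop :=
  ∃ (x : Fin N → ℝ) (lam : ℝ), Monotone x ∧ ∀ p, IsTrig n p →
    ∫ θ in (-Real.pi)..Real.pi, p θ * W θ = lam * ∑ i, p (x i)

/-- The least `M` such that for every `N ≥ M` a quadrature with exactly `N` nodes exists. -/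
noncomputable def Nbar (W : ℝ → ℝ) (n : ℕ) : ℕ := sInf {M | ∀ N ≥ M, HasQuad W n N}

/-- The ratios `∫|p'| / ∫ p W` over the nonnegative, not identically zero `p` of degree `≤ n`. -/
def kaneRatios (W : ℝ → ℝ) (n : ℕ) : Set ℝ :=
  {r | ∃ p : ℝ → ℝ, IsTrig n p ∧ (∀ θ, 0 ≤ p θ) ∧ (∃ θ, p θ ≠ 0) ∧
    r = (∫ θ in (-Real.pi)..Real.pi, |deriv p θ|) / ∫ θ in (-Real.pi)..Real.pi, p θ * W θ}

/-- Kane's quantity `K_W(n)`. -/
noncomputable def kane (W : ℝ → ℝ) (n : ℕ) : ℤ :=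
  ⌊(∫ θ in (-Real.pi)..Real.pi, W θ) / 2 * sSup (kaneRatios W n)⌋ + 1

/-- There is a `2π`-periodic weight function `W`, nowhere zero, for which all the suprema in
Kane's quantity are finite and for which, for every `c > 0`, the inequality
`Nbar W n < c * K_W(n)` holds for arbitrarily large `n` (where moreover the set defining
`Nbar W n` is nonempty, so that its least element is attained). -/
theorem result : ∃ W : ℝ → ℝ, IsWeight W ∧ (∀ θ, W θ ≠ 0) ∧
    (∀ n, BddAbove (kaneRatios W n)) ∧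
    ∀ c : ℝ, 0 < c → ∀ n₀ : ℕ, ∃ n : ℕ, n₀ ≤ n ∧ (∀ N ≥ Nbar W n, HasQuad W n N) ∧
      (Nbar W n : ℝ) < c * kane W n :=
  Pool.Agent.V11105.CQ.main

end Pool.Agent.Results.MP_8220a0_an.KaneNotSharp
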